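import Mathlib
import Pool.Agent.H98.Dbar.Final

/-!
# Admissible sets: the perimeter criterion and the global fractional perimeter

`Ω` is `α`-admissible if and only if `∑_j 2^{-αj} ‖∇(χ_Ω * φ_j)‖₁ < ∞` (every `α > 0`); for `α < 1`
if and only if `∫_Ω ∫_{Ωᶜ} |z-w|^{α-3} < ∞`.
-/

open MeasureTheory Complex Metric Set Filter Topology
open scoped ContDiff ENNReal NNReal Convolution

namespace H98.Dbar

variable {H : ℝ → ℝ}

/-- The perimeter criterion: `∑_j 2^{-αj} ‖∇(χ_Ω * φ_j)‖₁ < ∞`. -/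
def PerCrit (H : ℝ → ℝ) (α : ℝ) (Ω : Set ℂ) : Prop :=
  (∑' j : ℕ, ENNReal.ofReal ((2:ℝ) ^ (-(α * j))) * ∫⁻ z, ‖fderiv ℝ (moll H j Ω) z‖ₑ) < ⊤

lemma per_weight (α : ℝ) (j : ℕ) : (2:ℝ) ^ (-(α * j)) = ((1 / 2 : ℝ) ^ j) ^ α := by
  rw [one_div, inv_pow, ← Real.rpow_natCast, ← Real.rpow_neg (by norm_num),
    ← Real.rpow_mul (by norm_num)]
  congr 1; ring

/-- The pairing with the mollified indicator, at every scale. -/
lemma pair_scale' (hH : IsProfile H) {Ω : Set ℂ} (hΩ : MeasurableSet Ω) (j : ℕ) {G : ℂ → ℂ}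
    (hG : Integrable G) :
    ∫ z, chi Ω z * cv (dbar (bumpC H j)) G z =
      - ∫ z, dbar (fun z => (moll H j Ω z : ℂ)) z * G z := by
  have hφ : bumpC H j ∈ V := (bV hH j).2
  rw [adj (dbar_mem_V hφ) (chi_bm hΩ) hG, ← integral_neg]
  congr 1
  ext z
  have e2 : (fun u => dbar (bumpC H j) (-u)) = fun u => - dbar (bumpC H j) u := by
    ext u
    exact dbar_neg_even (V_differentiable hφ) (bumpC_neg j) u
  rw [e2]
  have e3 : (fun z => (moll H j Ω z : ℂ)) = cv (bumpC H j) (chi Ω) := by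
    ext z; exact moll_eq hΩ j z
  rw [e3, dbar_cv_left hφ (chi_bm hΩ).locInt]
  unfold cv
  rw [← neg_mul, ← integral_neg]
  congr 2
  ext w
  ring

lemma pair_scale_bound (hH : IsProfile H) {Ω : Set ℂ} (hΩ : MeasurableSet Ω) (j : ℕ) (G : V)
    (hint : Integrable (fun z => fderiv ℝ (moll H j Ω) z)) :
    ‖∫ z, chi Ω z * (cvOp (bV hH j) (dOp G)).1 z‖ ≤
      (∫ z, ‖fderiv ℝ (moll H j Ω) z‖) * supN G := by
  have hφ : bumpC H j ∈ V := (bV hH j).2
  have e : ∀ z, (cvOp (bV hH j) (dOp G)).1 z = cv (dbar (bumpC H j)) G.1 z := by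
    intro z
    change cv (bumpC H j) (dbar G.1) z = _
    rw [← dbar_cv_right hφ G.2, dbar_cv_left hφ (V_locInt G.2)]
  simp_rw [e]
  rw [pair_scale' hH hΩ j (V_integrable G.2), norm_neg, ← integral_mul_const]
  apply norm_integral_le_of_norm_le (hint.norm.mul_const _)
  filter_upwards with z
  rw [norm_mul]
  have hd : DifferentiableAt ℝ (moll H j Ω) z := ((moll_contDiff hH hΩ j).differentiable (by simp)) z
  have h1 : ‖fderiv ℝ (fun z => (moll H j Ω z : ℂ)) z‖ ≤ ‖fderiv ℝ (moll H j Ω) z‖ := by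
    have h0 : fderiv ℝ (fun w => (moll H j Ω w : ℂ)) z =
        Complex.ofRealCLM.comp (fderiv ℝ (moll H j Ω) z) :=
      (Complex.ofRealCLM.hasFDerivAt.comp z hd.hasFDerivAt).fderiv
    rw [h0]
    refine ContinuousLinearMap.opNorm_le_bound _ (norm_nonneg _) ?_
    intro v
    simp only [ContinuousLinearMap.comp_apply, Complex.ofRealCLM_apply, Complex.norm_real]
    exact (fderiv ℝ (moll H j Ω) z).le_opNorm v
  gcongr
  · exact (norm_dbar_le _ _).trans h1
  · exact le_supN G z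

lemma fdk_scale4 (f : ℂ → ℂ) (j : ℕ) (h : ℂ) (k : ℕ) (z : ℂ) :
    (fwdDiff h)^[k] (fun w => 4 ^ j * f (2 ^ j * w)) z =
      4 ^ j * (fwdDiff (2 ^ j * h))^[k] f (2 ^ j * z) := by
  induction k generalizing z with
  | zero => rfl
  | succ k ih =>
    rw [Function.iterate_succ_apply', Function.iterate_succ_apply']
    have e : ∀ (u : ℂ) (g : ℂ → ℂ) (z : ℂ), fwdDiff u g z = g (z + u) - g z := fun _ _ _ => rfl
    rw [e, e, ih, ih, ← mul_sub, mul_add]

/-- `L¹` norms of the iterated differences of the bumps. -/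
lemma bump_fdk (hH : IsProfile H) (k : ℕ) :
    ∃ M : ℝ, 0 ≤ M ∧ ∀ j : ℕ, ∀ h : ℂ, ∫ z, ‖(fwdDiff h)^[k] (bumpC H j) z‖ ≤
      M * min 1 ((2 ^ j * ‖h‖) ^ k) := by
  obtain ⟨M, hM, hb⟩ := fdk_l1_bound (f := bumpC H 0) (bV hH 0).2 k
  refine ⟨M, hM, fun j h => ?_⟩
  have e : bumpC H j = fun w => 4 ^ j * bumpC H 0 (2 ^ j * w) := by
    ext w
    unfold bumpC bumpAt
    push_cast
    simp
  rw [e]
  simp_rw [fdk_scale4, norm_mul, norm_pow, Complex.norm_ofNat]
  rw [integral_const_mul, integral_comp_two_pow_mul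
    (fun z => ‖(fwdDiff ((2:ℂ) ^ j * h))^[k] (bumpC H 0) z‖) j, smul_eq_mul, ← mul_assoc,
    mul_inv_cancel₀ (by positivity), one_mul]
  have h1 := hb (2 ^ j * h)
  rwa [norm_mul, norm_pow, Complex.norm_ofNat] at h1

theorem nec_per (hH : IsProfile H) {α : ℝ} (hα : 0 < α) {k : ℕ} (hk : α < k) {Ω : Set ℂ}
    (hΩ : MeasurableSet Ω) (h : AdmW α k Ω) : ∃ C' : ℝ, 0 ≤ C' ∧ ∀ (v : ℂ), (v = 1 ∨ v = I) →
    ∀ (J : ℕ) (R : ℝ), ∑ j ∈ Finset.range J, ((1 / 2 : ℝ) ^ j) ^ α *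
      ∫ z in closedBall (0:ℂ) R, ‖fderiv ℝ (moll H j Ω) z v‖ ≤ C' := by
  obtain ⟨C, hC0, hC⟩ := h
  obtain ⟨M, hM0, hM⟩ := bump_fdk hH k
  obtain ⟨Cg, hCg0, hCg⟩ := geom_min hα hk
  set q : ℝ := (1 / 2 : ℝ) ^ α with hq
  have hq0 : 0 < q := by rw [hq]; positivity
  have hq1 : q < 1 := Real.rpow_lt_one (by norm_num) (by norm_num) hα
  have h1q : 0 < 1 - q := by linarith
  refine ⟨2 * (C * (1 / (1 - q) + M * Cg)), by positivity, ?_⟩
  intro v hv J R
  have hus : ∀ j, ContDiff ℝ ∞ (moll H j Ω) := fun j => moll_contDiff hH hΩ j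
  have hud : ∀ j, Differentiable ℝ (moll H j Ω) := fun j => (hus j).differentiable (by simp)
  have hcont : ∀ (j : ℕ) (w : ℂ), Continuous (fun z => fderiv ℝ (moll H j Ω) z w) := fun j w =>
    ((hus j).continuous_fderiv (by simp)).clm_apply continuous_const
  set Fv : ℕ → ℂ → ℝ := fun j z => fderiv ℝ (moll H j Ω) z v with hFv
  have hFm : ∀ j, Measurable (Fv j) := fun j => (hcont j v).measurable
  have hsgl : ∀ j, LocallyIntegrable (sg (Fv j) R) := fun j => (sg_bm (hFm j) R).locInt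
  have hφ : ∀ j, bumpC H j ∈ V := fun j => (bV hH j).2
  set F : ℕ → V := fun j => ⟨cv (bumpC H j) (sg (Fv j) R),
    cv_mem_V (hφ j) (hsgl j) (sg_supp _ _)⟩ with hF
  set c : ℕ → ℝ := fun j => ((1 / 2 : ℝ) ^ j) ^ α with hcdef
  have hc0 : ∀ j, 0 ≤ c j := fun j => by rw [hcdef]; positivity
  set f : V := ∑ j ∈ Finset.range J, ((c j : ℝ) : ℂ) • F j with hf
  have hsup : ∀ j, supN (F j) ≤ 1 := by
    intro j
    apply supN_le
    intro z
    have := cv_bound (V_integrable (hφ j)) (sg_bm (hFm j) R).bd z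
    rw [mul_one, show (∫ w, ‖bumpC H j w‖) = 1 from (bV_prob hH j).intNorm] at this
    exact this
  have hA : ∀ z, ‖f.1 z‖ ≤ 1 / (1 - q) := by
    intro z
    refine (le_supN f z).trans ?_
    refine (sum_smul_le supN c hc0 F _ hsup J).trans ?_
    calc ∑ j ∈ Finset.range J, c j * 1 = ∑ j ∈ Finset.range J, q ^ j := by
          apply Finset.sum_congr rfl
          intro j _
          rw [hcdef, mul_one]
          exact half_pow_rpow α j
      _ ≤ 1 / (1 - q) := geom_sum_le hq0.le hq1 J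
  have hB : ∀ h z, ‖(fwdDiff h)^[k] f.1 z‖ ≤ (M * Cg) * ‖h‖ ^ α := by
    intro h z
    rw [← fdOp_pow]
    have e1 : ((fdOp h) ^ k) f = ∑ j ∈ Finset.range J, ((c j : ℝ) : ℂ) • ((fdOp h) ^ k) (F j) := by
      rw [hf, map_sum]
      simp_rw [map_smul]
    refine (le_supN _ z).trans ?_
    rw [e1]
    refine (sum_smul_le supN c hc0 (fun j => ((fdOp h) ^ k) (F j))
      (fun j => (M * min 1 ((2 ^ j * ‖h‖) ^ k))) ?_ J).trans ?_
    · intro j
      apply supN_le
      intro z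
      rw [fdOp_pow]
      have e2 : (fwdDiff h)^[k] (F j).1 = cv ((fwdDiff h)^[k] (bumpC H j)) (sg (Fv j) R) :=
        fdk_cv (hφ j) (hsgl j) h k
      rw [e2]
      have := cv_bound (V_integrable (fdk_mem_V (hφ j) h k)) (sg_bm (hFm j) R).bd z
      rw [mul_one] at this
      exact this.trans (hM j h)
    · calc ∑ j ∈ Finset.range J, c j * (M * min 1 ((2 ^ j * ‖h‖) ^ k))
          = M * ∑ j ∈ Finset.range J, ((1 / 2 : ℝ) ^ j) ^ α * min 1 ((2 ^ j * ‖h‖) ^ k) := by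
            rw [Finset.mul_sum]
            apply Finset.sum_congr rfl
            intro j _
            rw [hcdef]
            ring
        _ ≤ M * (Cg * ‖h‖ ^ α) := by
            gcongr
            exact hCg J ‖h‖ (norm_nonneg h)
        _ = (M * Cg) * ‖h‖ ^ α := by ring
  have hmain := hC f (1 / (1 - q)) (M * Cg) (by positivity) (by positivity) hA hB
  have e0 : ∫ z in Ω, dbar f.1 z = chiL hΩ (dOp f) := by
    rw [chiL_apply]
    exact setIntegral_chi hΩ _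
  have e1 : chiL hΩ (dOp f) = ∑ j ∈ Finset.range J, ((c j : ℝ) : ℂ) * chiL hΩ (dOp (F j)) := by
    rw [hf, map_sum, map_sum]
    simp_rw [map_smul, smul_eq_mul]
  set a : ℕ → ℝ := fun j => ∫ z, fderiv ℝ (moll H j Ω) z 1 * sgr (Fv j) R z with ha
  set b : ℕ → ℝ := fun j => ∫ z, fderiv ℝ (moll H j Ω) z I * sgr (Fv j) R z with hb
  have e2 : ∀ j, chiL hΩ (dOp (F j)) = -((1 / 2 : ℂ) * ((a j : ℂ) + I * (b j : ℂ))) := by
    intro j
    rw [chiL_apply]
    have e3 : ∀ z, (dOp (F j)).1 z = cv (dbar (bumpC H j)) (sg (Fv j) R) z := by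
      intro z
      exact dbar_cv_left (hφ j) (hsgl j) z
    simp_rw [e3]
    rw [pair_scale' hH hΩ j (sg_integrable (hFm j) R)]
    congr 1
    have e4 : ∀ z, dbar (fun z => (moll H j Ω z : ℂ)) z * sg (Fv j) R z =
      (1 / 2 : ℂ) * (((fderiv ℝ (moll H j Ω) z 1 * sgr (Fv j) R z : ℝ) : ℂ) +
        I * ((fderiv ℝ (moll H j Ω) z I * sgr (Fv j) R z : ℝ) : ℂ)) := by
      intro z
      rw [dbar_real (moll H j Ω) z (hud j z), sg_eq_sgr]
      push_cast
      ring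
    simp_rw [e4]
    rw [integral_const_mul, integral_add, integral_const_mul, integral_complex_ofReal,
      integral_complex_ofReal]
    · exact (cont_mul_sgr_integrable (hcont j 1) (hFm j) R).ofReal
    · exact ((cont_mul_sgr_integrable (hcont j I) (hFm j) R).ofReal).const_mul I
  have e5 : chiL hΩ (dOp f) = -((1 / 2 : ℂ) *
      (((∑ j ∈ Finset.range J, c j * a j : ℝ) : ℂ) +
        I * ((∑ j ∈ Finset.range J, c j * b j : ℝ) : ℂ))) := by
    rw [e1]
    simp_rw [e2]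
    push_cast
    rw [Finset.mul_sum, ← Finset.sum_add_distrib, Finset.mul_sum, ← Finset.sum_neg_distrib]
    refine Finset.sum_congr rfl fun j _ => ?_
    ring
  rw [e0, e5, norm_neg] at hmain
  set a' : ℝ := ∑ j ∈ Finset.range J, c j * a j with ha'
  set b' : ℝ := ∑ j ∈ Finset.range J, c j * b j with hb'
  have hre : |a'| ≤ 2 * (C * (1 / (1 - q) + M * Cg)) := by
    have h1 := Complex.abs_re_le_norm ((1 / 2 : ℂ) * ((a' : ℂ) + I * (b' : ℂ)))
    have h2 : ((1 / 2 : ℂ) * ((a' : ℂ) + I * (b' : ℂ))).re = 1 / 2 * a' := by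
      simp [Complex.mul_re, Complex.mul_im]
    rw [h2, abs_mul, abs_of_pos (by norm_num : (0:ℝ) < 1 / 2)] at h1
    linarith
  have him : |b'| ≤ 2 * (C * (1 / (1 - q) + M * Cg)) := by
    have h1 := Complex.abs_im_le_norm ((1 / 2 : ℂ) * ((a' : ℂ) + I * (b' : ℂ)))
    have h2 : ((1 / 2 : ℂ) * ((a' : ℂ) + I * (b' : ℂ))).im = 1 / 2 * b' := by
      simp [Complex.mul_re, Complex.mul_im]
    rw [h2, abs_mul, abs_of_pos (by norm_num : (0:ℝ) < 1 / 2)] at h1
    linarith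
  have e6 : ∀ j, ∫ z in closedBall (0:ℂ) R, ‖Fv j z‖ = ∫ z, Fv j z * sgr (Fv j) R z := by
    intro j
    simp_rw [mul_sgr_self]
    rw [integral_indicator measurableSet_closedBall]
  change ∑ j ∈ Finset.range J, c j * ∫ z in closedBall (0:ℂ) R, ‖Fv j z‖ ≤ _
  simp_rw [e6]
  rcases hv with hv | hv
  · have h7 : ∀ j, ∫ z, Fv j z * sgr (Fv j) R z = a j := by
      intro j
      rw [ha, hFv, hv]
    simp_rw [h7]
    exact (le_abs_self a').trans hre
  · have h7 : ∀ j, ∫ z, Fv j z * sgr (Fv j) R z = b j := by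
      intro j
      rw [hb, hFv, hv]
    simp_rw [h7]
    exact (le_abs_self b').trans him

theorem perCrit_of_adm (hH : IsProfile H) {α : ℝ} (hα : 0 < α) {k : ℕ} (hk : α < k) {Ω : Set ℂ}
    (hΩ : MeasurableSet Ω) (h : AdmW α k Ω) : PerCrit H α Ω := by
  obtain ⟨C', hC'0, hC'⟩ := nec_per hH hα hk hΩ h
  have hcd : ∀ j, Continuous (fun z => fderiv ℝ (moll H j Ω) z) := fun j =>
    (moll_contDiff hH hΩ j).continuous_fderiv (by simp)
  have key : ∀ J : ℕ, ∑ j ∈ Finset.range J, ENNReal.ofReal ((2:ℝ) ^ (-(α * j))) *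
      ∫⁻ z, ‖fderiv ℝ (moll H j Ω) z‖ₑ ≤ ENNReal.ofReal (C' + C') := by
    intro J
    have hlim : Tendsto (fun n : ℕ => ∑ j ∈ Finset.range J, ENNReal.ofReal ((2:ℝ) ^ (-(α * j))) *
        ∫⁻ z in closedBall (0:ℂ) n, ‖fderiv ℝ (moll H j Ω) z‖ₑ) atTop
        (𝓝 (∑ j ∈ Finset.range J, ENNReal.ofReal ((2:ℝ) ^ (-(α * j))) *
          ∫⁻ z, ‖fderiv ℝ (moll H j Ω) z‖ₑ)) := by
      apply tendsto_finsetSum
      intro j _
      apply ENNReal.Tendsto.const_mul
      · exact (aecover_closedBall (μ := volume) (x := (0:ℂ)) tendsto_natCast_atTop_atTop).lintegral_tendsto_of_countably_generated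
          ((hcd j).measurable.enorm.aemeasurable)
      · right; exact ENNReal.ofReal_ne_top
    refine le_of_tendsto' hlim ?_
    intro n
    have hcont : ∀ (j : ℕ) (w : ℂ), Continuous (fun z => fderiv ℝ (moll H j Ω) z w) := fun j w =>
      (hcd j).clm_apply continuous_const
    have hint : ∀ (j : ℕ) (w : ℂ),
        IntegrableOn (fun z => fderiv ℝ (moll H j Ω) z w) (closedBall (0:ℂ) n) :=
      fun j w => (hcont j w).continuousOn.integrableOn_compact (isCompact_closedBall _ _)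
    have h1 : ∀ j : ℕ, ENNReal.ofReal ((2:ℝ) ^ (-(α * j))) *
        ∫⁻ z in closedBall (0:ℂ) n, ‖fderiv ℝ (moll H j Ω) z‖ₑ ≤
        ENNReal.ofReal (((1 / 2 : ℝ) ^ j) ^ α *
            (∫ z in closedBall (0:ℂ) n, ‖fderiv ℝ (moll H j Ω) z 1‖) +
          ((1 / 2 : ℝ) ^ j) ^ α *
            (∫ z in closedBall (0:ℂ) n, ‖fderiv ℝ (moll H j Ω) z I‖)) := by
      intro j
      have hw : 0 ≤ ((1 / 2 : ℝ) ^ j) ^ α := by positivity
      have hi1 : 0 ≤ ∫ z in closedBall (0:ℂ) n, ‖fderiv ℝ (moll H j Ω) z 1‖ :=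
        integral_nonneg fun _ => norm_nonneg _
      have hi2 : 0 ≤ ∫ z in closedBall (0:ℂ) n, ‖fderiv ℝ (moll H j Ω) z I‖ :=
        integral_nonneg fun _ => norm_nonneg _
      rw [← mul_add, ENNReal.ofReal_mul hw, per_weight]
      gcongr
      have s1 : ∫⁻ z in closedBall (0:ℂ) n, ‖fderiv ℝ (moll H j Ω) z‖ₑ ≤
          ∫⁻ z in closedBall (0:ℂ) n, (‖fderiv ℝ (moll H j Ω) z 1‖ₑ +
            ‖fderiv ℝ (moll H j Ω) z I‖ₑ) := by
        apply lintegral_mono
        intro z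
        have h1 := norm_le_parts (fderiv ℝ (moll H j Ω) z)
        change ‖fderiv ℝ (moll H j Ω) z‖ₑ ≤ ‖fderiv ℝ (moll H j Ω) z 1‖ₑ +
          ‖fderiv ℝ (moll H j Ω) z I‖ₑ
        rw [← ofReal_norm, ← ofReal_norm, ← ofReal_norm,
          ← ENNReal.ofReal_add (norm_nonneg _) (norm_nonneg _)]
        exact ENNReal.ofReal_le_ofReal h1
      refine s1.trans (le_of_eq ?_)
      rw [lintegral_add_left ((hcont j 1).measurable.enorm) _, ENNReal.ofReal_add hi1 hi2,
        ofReal_integral_norm_eq_lintegral_enorm (hint j 1),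
        ofReal_integral_norm_eq_lintegral_enorm (hint j I)]
    refine (Finset.sum_le_sum fun j _ => h1 j).trans ?_
    rw [← ENNReal.ofReal_sum_of_nonneg]
    · apply ENNReal.ofReal_le_ofReal
      rw [Finset.sum_add_distrib]
      exact add_le_add (hC' 1 (Or.inl rfl) J n) (hC' I (Or.inr rfl) J n)
    · intro j _
      have hi1 : 0 ≤ ∫ z in closedBall (0:ℂ) n, ‖fderiv ℝ (moll H j Ω) z 1‖ :=
        integral_nonneg fun _ => norm_nonneg _
      have hi2 : 0 ≤ ∫ z in closedBall (0:ℂ) n, ‖fderiv ℝ (moll H j Ω) z I‖ :=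
        integral_nonneg fun _ => norm_nonneg _
      positivity
  exact lt_of_le_of_lt (ENNReal.tsum_le_of_sum_range_le key) ENNReal.ofReal_lt_top

/-- `L¹` norms of the gradients. -/
noncomputable def Dj (H : ℝ → ℝ) (Ω : Set ℂ) (j : ℕ) : ℝ := ∫ z, ‖fderiv ℝ (moll H j Ω) z‖

lemma Dj_nonneg (H : ℝ → ℝ) (Ω : Set ℂ) (j : ℕ) : 0 ≤ Dj H Ω j :=
  integral_nonneg fun _ => norm_nonneg _

lemma perCrit_integrable (hH : IsProfile H) {α : ℝ} {Ω : Set ℂ} (hΩ : MeasurableSet Ω)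
    (h : PerCrit H α Ω) (j : ℕ) : Integrable (fun z => fderiv ℝ (moll H j Ω) z) := by
  refine ⟨?_, ?_⟩
  · exact ((moll_contDiff hH hΩ j).continuous_fderiv (by simp)).aestronglyMeasurable
  · have h1 := ENNReal.ne_top_of_tsum_ne_top h.ne j
    rw [hasFiniteIntegral_iff_enorm]
    by_contra hcon
    rw [not_lt, top_le_iff] at hcon
    rw [hcon] at h1
    apply h1
    rw [ENNReal.mul_top]
    rw [ne_eq, ENNReal.ofReal_eq_zero, not_le]
    positivity

lemma perCrit_sum (hH : IsProfile H) {α : ℝ} {Ω : Set ℂ} (hΩ : MeasurableSet Ω)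
    (h : PerCrit H α Ω) (J : ℕ) : ∑ j ∈ Finset.range J, ((1 / 2 : ℝ) ^ j) ^ α * Dj H Ω j ≤
      (∑' j : ℕ, ENNReal.ofReal ((2:ℝ) ^ (-(α * j))) *
        ∫⁻ z, ‖fderiv ℝ (moll H j Ω) z‖ₑ).toReal := by
  have h1 : ∀ j, Dj H Ω j = (∫⁻ z, ‖fderiv ℝ (moll H j Ω) z‖ₑ).toReal := by
    intro j
    unfold Dj
    rw [integral_norm_eq_lintegral_enorm (perCrit_integrable hH hΩ h j).1]
  have h2 : ∀ j : ℕ, ((1 / 2 : ℝ) ^ j) ^ α * Dj H Ω j =
      (ENNReal.ofReal ((2:ℝ) ^ (-(α * j))) * ∫⁻ z, ‖fderiv ℝ (moll H j Ω) z‖ₑ).toReal := by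
    intro j
    rw [ENNReal.toReal_mul, ENNReal.toReal_ofReal (by positivity), h1, per_weight]
  simp_rw [h2]
  rw [← ENNReal.toReal_sum]
  · apply ENNReal.toReal_mono h.ne
    exact ENNReal.sum_le_tsum _
  · intro j _
    exact ENNReal.ne_top_of_tsum_ne_top h.ne j

lemma per_ring {R : Type*} [Ring R] {w y p d x : R} (h1 : Commute w (y * p * d))
    (h2 : Commute y (p * d)) : w * (y * p * d * x) = p * d * (y * (w * x)) := by
  calc w * (y * p * d * x) = (w * (y * p * d)) * x := by simp only [mul_assoc]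
    _ = ((y * p * d) * w) * x := by rw [h1.eq]
    _ = (y * (p * d)) * (w * x) := by simp only [mul_assoc]
    _ = ((p * d) * y) * (w * x) := by rw [h2.eq]
    _ = _ := by simp only [mul_assoc]

lemma tele_per_ring {R : Type*} [Ring R] {a b y y' d x q q' : R} (hq' : q' = y' * a)
    (hq : q = y * b) (h1 : Commute (a - b) (y' * a * d)) (h2 : Commute y' (a * d))
    (h3 : Commute (a - b) (y * b * d)) (h4 : Commute y (b * d)) :
    (a - b) * ((q' + q) * d * x) =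
      a * d * (y' * ((a - b) * x)) + b * d * (y * ((a - b) * x)) := by
  rw [← per_ring h1 h2, ← per_ring h3 h4, hq, hq', ← mul_add, ← add_mul, ← add_mul]

lemma tele_per (hH : IsProfile H) (k j : ℕ) :
    (Qo hH k (j + 1)) ^ 2 * dOp - (Qo hH k j) ^ 2 * dOp =
      Ph hH (j + 1) * dOp * (Yo hH k (j + 1) * ((Ph hH (j + 1) - Ph hH j) * Xo hH k j)) +
      Ph hH j * dOp * (Yo hH k j * ((Ph hH (j + 1) - Ph hH j) * Xo hH k j)) := by
  have hw : ∀ {T : Module.End ℂ V}, (∀ i, Commute (Ph hH i) T) →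
      Commute (Ph hH (j + 1) - Ph hH j) T := fun hT =>
    Commute.sub_left (R := Module.End ℂ V) (hT (j + 1)) (hT j)
  have hwY : ∀ i, Commute (Ph hH (j + 1) - Ph hH j) (Yo hH k i) := fun i =>
    hw fun l => (Yo_comm (fun m => Ph_comm hH m l)).symm
  have hwP : ∀ i, Commute (Ph hH (j + 1) - Ph hH j) (Ph hH i) := fun i =>
    hw fun l => Ph_comm hH l i
  have hwd : Commute (Ph hH (j + 1) - Ph hH j) dOp := hw fun l => Ph_dOp hH l
  have c1 : ∀ i, Commute (Ph hH (j + 1) - Ph hH j) (Yo hH k i * Ph hH i * dOp) := fun i =>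
    ((hwY i).mul_right (hwP i)).mul_right hwd
  have c2 : ∀ i, Commute (Yo hH k i) (Ph hH i * dOp) := fun i =>
    (Yo_comm fun m => Ph_comm hH m i).mul_right (Yo_comm (Ph_dOp hH))
  rw [tele_op]
  exact tele_per_ring (R := Module.End ℂ V) (Qo_eq hH k (j + 1)) (Qo_eq hH k j) (c1 (j + 1))
    (c2 (j + 1)) (c1 j) (c2 j)

theorem adm_of_perCrit (hH : IsProfile H) {α : ℝ} (hα : 0 < α) {k : ℕ} {Ω : Set ℂ}
    (hΩ : MeasurableSet Ω) (h : PerCrit H α Ω) : AdmW α k Ω := by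
  set T : ℝ := (∑' j : ℕ, ENNReal.ofReal ((2:ℝ) ^ (-(α * j))) *
        ∫⁻ z, ‖fderiv ℝ (moll H j Ω) z‖ₑ).toReal with hT
  have hT0 : 0 ≤ T := ENNReal.toReal_nonneg
  have hsum := perCrit_sum hH hΩ h
  have hD0 : Dj H Ω 0 ≤ T := by
    have := hsum 1
    simpa using this
  set K1 : ℝ := 2 ^ (k + 1) * (2 * ((k + 1) * (2 ^ k * (k:ℝ) ^ α))) with hK1
  have hK10 : 0 ≤ K1 := by rw [hK1]; positivity
  set K0 : ℝ := (1 + 2 ^ (k + 1)) * 2 ^ (k + 1) with hK0
  have hK00 : 0 ≤ K0 := by rw [hK0]; positivity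
  have h2a : (0:ℝ) ≤ 2 ^ α := by positivity
  refine ⟨T * K0 + K1 * ((2 ^ α + 1) * T), by positivity, ?_⟩
  intro f A B hA hB hfA hfB
  set g : V := dOp f with hg
  have e0 : ∫ z in Ω, dbar f.1 z = ∫ z, chi Ω z * g.1 z := setIntegral_chi hΩ _
  rw [e0]
  have low : ‖∫ z, chi Ω z * ((Qo hH k 0 ^ 2) g).1 z‖ ≤ T * (K0 * A) := by
    have e1 : (Qo hH k 0 ^ 2) g = cvOp (bV hH 0) (dOp ((Qo hH k 0 * Yo hH k 0) f)) := by
      have c1 : Commute (Qo hH k 0 * Yo hH k 0) (Ph hH 0 * dOp) := by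
        apply Commute.mul_left
        · exact (Qo_comm fun i => (Ph_comm hH i 0)).mul_right (Qo_comm (Ph_dOp hH))
        · exact (Yo_comm fun i => (Ph_comm hH i 0)).mul_right (Yo_comm (Ph_dOp hH))
      have c2 : Qo hH k 0 ^ 2 = (Qo hH k 0 * Yo hH k 0) * Ph hH 0 := by
        rw [sq, mul_assoc, ← Qo_eq]
      have c4 : (Qo hH k 0 ^ 2) * dOp = Ph hH 0 * dOp * (Qo hH k 0 * Yo hH k 0) := by
        rw [c2, mul_assoc, c1.eq]
      exact LinearMap.congr_fun c4 f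
    rw [e1]
    refine (pair_scale_bound hH hΩ 0 _ (perCrit_integrable hH hΩ h 0)).trans ?_
    have hQ : OpLe supN (Qo hH k 0) (1 + 2 ^ (k + 1)) :=
      (OpLe.one _).sub ((OneSub_le (Ph_supN hH 0)).pow (by norm_num) _)
    have hQY := hQ.mul (Yo_le hH k 0 (Ph_supN hH 0)) (by positivity)
    have h3 : supN ((Qo hH k 0 * Yo hH k 0) f) ≤ K0 * A := by
      refine (hQY f).trans ?_
      rw [← hK0]
      gcongr
      exact supN_le hfA
    exact mul_le_mul hD0 h3 (apply_nonneg _ _) hT0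
  have piece : ∀ i j : ℕ, ‖∫ z, chi Ω z *
      ((Ph hH i * dOp * (Yo hH k i * ((Ph hH (j + 1) - Ph hH j) * Xo hH k j))) f).1 z‖ ≤
      K1 * B * (((1 / 2 : ℝ) ^ j) ^ α * Dj H Ω i) := by
    intro i j
    have e1 : (Ph hH i * dOp * (Yo hH k i * ((Ph hH (j + 1) - Ph hH j) * Xo hH k j))) f =
        cvOp (bV hH i) (dOp (Yo hH k i ((Ph hH (j + 1) - Ph hH j) (Xo hH k j f)))) := rfl
    rw [e1]
    refine (pair_scale_bound hH hΩ i _ (perCrit_integrable hH hΩ h i)).trans ?_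
    have h2 := Xo_bound hH hα hB hfB j
    have h3 : OpLe supN (Ph hH (j + 1) - Ph hH j) (1 + 1) :=
      (Ph_supN hH (j + 1)).sub (Ph_supN hH j)
    have h4 : supN (Yo hH k i ((Ph hH (j + 1) - Ph hH j) (Xo hH k j f))) ≤
        2 ^ (k + 1) * ((1 + 1) * ((k + 1) * (2 ^ k * (B * (k * (1 / 2 : ℝ) ^ j) ^ α)))) := by
      refine (Yo_le hH k i (Ph_supN hH i) _).trans ?_
      gcongr
      refine (h3 _).trans ?_
      gcongr
    have hDi := Dj_nonneg H Ω i
    calc Dj H Ω i * supN (Yo hH k i ((Ph hH (j + 1) - Ph hH j) (Xo hH k j f))) ≤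
        Dj H Ω i * (2 ^ (k + 1) * ((1 + 1) *
          ((k + 1) * (2 ^ k * (B * (k * (1 / 2 : ℝ) ^ j) ^ α))))) :=
          mul_le_mul_of_nonneg_left h4 hDi
      _ = K1 * B * (((1 / 2 : ℝ) ^ j) ^ α * Dj H Ω i) := by
          rw [Real.mul_rpow (by positivity) (by positivity), hK1]
          ring
  have high : ∀ j, ‖∫ z, chi Ω z * (((Qo hH k (j + 1) ^ 2) g - (Qo hH k j ^ 2) g)).1 z‖ ≤
      K1 * B * (((1 / 2 : ℝ) ^ j) ^ α * Dj H Ω (j + 1) + ((1 / 2 : ℝ) ^ j) ^ α * Dj H Ω j) := by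
    intro j
    have e1 : (Qo hH k (j + 1) ^ 2) g - (Qo hH k j ^ 2) g =
        (Ph hH (j + 1) * dOp * (Yo hH k (j + 1) * ((Ph hH (j + 1) - Ph hH j) * Xo hH k j))) f +
        (Ph hH j * dOp * (Yo hH k j * ((Ph hH (j + 1) - Ph hH j) * Xo hH k j))) f :=
      LinearMap.congr_fun (tele_per hH k j) f
    rw [e1]
    set u := (Ph hH (j + 1) * dOp * (Yo hH k (j + 1) *
      ((Ph hH (j + 1) - Ph hH j) * Xo hH k j))) f with hu
    set w := (Ph hH j * dOp * (Yo hH k j * ((Ph hH (j + 1) - Ph hH j) * Xo hH k j))) f with hw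
    have e2 : ∫ z, chi Ω z * (u + w).1 z = (∫ z, chi Ω z * u.1 z) + ∫ z, chi Ω z * w.1 z := by
      rw [← integral_add (integrable_chi_mul hΩ (V_integrable u.2))
        (integrable_chi_mul hΩ (V_integrable w.2))]
      congr 1
      ext z
      have : (u + w).1 z = u.1 z + w.1 z := rfl
      rw [this]; ring
    rw [e2, mul_add]
    exact (norm_add_le _ _).trans (add_le_add (piece (j + 1) j) (piece j j))
  have tel : ∀ J, ‖∫ z, chi Ω z * ((Qo hH k J ^ 2) g).1 z‖ ≤ T * (K0 * A) +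
      ∑ j ∈ Finset.range J, K1 * B * (((1 / 2 : ℝ) ^ j) ^ α * Dj H Ω (j + 1) +
        ((1 / 2 : ℝ) ^ j) ^ α * Dj H Ω j) := by
    intro J
    induction J with
    | zero => simpa using low
    | succ J ih =>
      have e1 : ∫ z, chi Ω z * ((Qo hH k (J + 1) ^ 2) g).1 z =
          (∫ z, chi Ω z * ((Qo hH k J ^ 2) g).1 z) +
          ∫ z, chi Ω z * (((Qo hH k (J + 1) ^ 2) g - (Qo hH k J ^ 2) g)).1 z := by
        rw [← integral_add (integrable_chi_mul hΩ (V_integrable (Subtype.property _)))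
          (integrable_chi_mul hΩ (V_integrable (Subtype.property _)))]
        congr 1
        ext z
        have : ((Qo hH k (J + 1) ^ 2) g - (Qo hH k J ^ 2) g).1 z =
          ((Qo hH k (J + 1) ^ 2) g).1 z - ((Qo hH k J ^ 2) g).1 z := rfl
        rw [this]
        ring
      rw [e1, Finset.sum_range_succ, ← add_assoc]
      exact (norm_add_le _ _).trans (add_le_add ih (high J))
  have hsum2 : ∀ J, ∑ j ∈ Finset.range J, (((1 / 2 : ℝ) ^ j) ^ α * Dj H Ω (j + 1) +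
        ((1 / 2 : ℝ) ^ j) ^ α * Dj H Ω j) ≤ (2 ^ α + 1) * T := by
    intro J
    rw [Finset.sum_add_distrib, add_mul, one_mul]
    refine add_le_add ?_ (hsum J)
    have h5 : ∀ j : ℕ, ((1 / 2 : ℝ) ^ j) ^ α = 2 ^ α * ((1 / 2 : ℝ) ^ (j + 1)) ^ α := by
      intro j
      rw [← Real.mul_rpow (by norm_num) (by positivity)]
      congr 1
      rw [pow_succ]
      ring
    calc ∑ j ∈ Finset.range J, ((1 / 2 : ℝ) ^ j) ^ α * Dj H Ω (j + 1) =
        2 ^ α * ∑ j ∈ Finset.range J, ((1 / 2 : ℝ) ^ (j + 1)) ^ α * Dj H Ω (j + 1) := by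
          rw [Finset.mul_sum]
          refine Finset.sum_congr rfl fun j _ => ?_
          rw [h5 j]; ring
      _ ≤ 2 ^ α * ∑ j ∈ Finset.range (J + 1), ((1 / 2 : ℝ) ^ j) ^ α * Dj H Ω j := by
          apply mul_le_mul_of_nonneg_left _ h2a
          rw [Finset.sum_range_succ']
          have := Dj_nonneg H Ω 0
          have h6 : 0 ≤ ((1 / 2 : ℝ) ^ 0) ^ α * Dj H Ω 0 := by positivity
          linarith
      _ ≤ 2 ^ α * T := mul_le_mul_of_nonneg_left (hsum (J + 1)) h2a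
  have main : ∀ J, ‖∫ z, chi Ω z * g.1 z‖ ≤
      l1N ((1 - (Qo hH k J) ^ 2 : Module.End ℂ V) g) +
        (T * (K0 * A) + K1 * B * ((2 ^ α + 1) * T)) := by
    intro J
    have e1 : ∫ z, chi Ω z * g.1 z =
        (∫ z, chi Ω z * ((1 - (Qo hH k J) ^ 2 : Module.End ℂ V) g).1 z) +
        ∫ z, chi Ω z * ((Qo hH k J ^ 2) g).1 z := by
      rw [← integral_add (integrable_chi_mul hΩ (V_integrable (Subtype.property _)))
          (integrable_chi_mul hΩ (V_integrable (Subtype.property _)))]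
      congr 1
      ext z
      have : ((1 - (Qo hH k J) ^ 2 : Module.End ℂ V) g).1 z = g.1 z - ((Qo hH k J ^ 2) g).1 z := rfl
      rw [this]
      ring
    rw [e1]
    refine (norm_add_le _ _).trans (add_le_add (chi_norm_le hΩ _) ((tel J).trans ?_))
    gcongr
    rw [← Finset.mul_sum]
    gcongr
    exact hsum2 J
  have lim : Tendsto (fun J => l1N ((1 - (Qo hH k J) ^ 2 : Module.End ℂ V) g) +
      (T * (K0 * A) + K1 * B * ((2 ^ α + 1) * T))) atTop
      (𝓝 (0 + (T * (K0 * A) + K1 * B * ((2 ^ α + 1) * T)))) :=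
    (approx_S hH k g).add_const _
  have fin := ge_of_tendsto' lim main
  calc ‖∫ z, chi Ω z * g.1 z‖ ≤ 0 + (T * (K0 * A) + K1 * B * ((2 ^ α + 1) * T)) := fin
    _ ≤ (T * K0 + K1 * ((2 ^ α + 1) * T)) * (A + B) := by
        have h7 : 0 ≤ T * K0 * B := by positivity
        have h8 : 0 ≤ K1 * ((2 ^ α + 1) * T) * A := by positivity
        nlinarith

/-- **The perimeter criterion**, for every `α > 0`. -/
theorem admissible_iff_perCrit (hH : IsProfile H) {α : ℝ} (hα : 0 < α) {k : ℕ} (hk : α < k)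
    {Ω : Set ℂ} (hΩ : MeasurableSet Ω) : Admissible α k Ω ↔ PerCrit H α Ω :=
  (adm_iff_admW (pos_of_lt hα hk) Ω).trans
    ⟨perCrit_of_adm hH hα hk hΩ, adm_of_perCrit hH hα hΩ⟩

/-! ### The global fractional perimeter -/

/-- The part of the kernel away from the diagonal. -/
noncomputable def farK (α : ℝ) (u : ℂ) : ℝ≥0∞ :=
  {u : ℂ | 1 ≤ ‖u‖}.indicator (fun u => ENNReal.ofReal (‖u‖ ^ (α - 3))) u

lemma farK_meas (α : ℝ) : Measurable (farK α) := by
  unfold farK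
  apply Measurable.indicator
  · exact (measurable_norm.pow_const _).ennreal_ofReal
  · exact measurableSet_le measurable_const measurable_norm

lemma farK_lt_top {α : ℝ} (hα1 : α < 1) : ∫⁻ u, farK α u < ⊤ := by
  have h1 : ∀ u : ℂ, farK α u ≤ ENNReal.ofReal (2 ^ (3 - α)) *
      ENNReal.ofReal ((1 + ‖u‖) ^ (-(3 - α))) := by
    intro u
    unfold farK
    by_cases hu : u ∈ {u : ℂ | 1 ≤ ‖u‖}
    · rw [indicator_of_mem hu, ← ENNReal.ofReal_mul (by positivity)]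
      apply ENNReal.ofReal_le_ofReal
      have hu1 : 1 ≤ ‖u‖ := hu
      have e1 : (2:ℝ) ^ (3 - α) = ((1 / 2 : ℝ)) ^ (-(3 - α)) := by
        rw [one_div, Real.inv_rpow (by norm_num), ← Real.rpow_neg (by norm_num), neg_neg]
      rw [e1, ← Real.mul_rpow (by norm_num) (by positivity),
        show α - 3 = -(3 - α) by ring]
      apply Real.rpow_le_rpow_of_nonpos (by positivity) (by linarith) (by linarith)
    · rw [indicator_of_notMem hu]
      exact bot_le
  refine lt_of_le_of_lt (lintegral_mono h1) ?_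
  rw [lintegral_const_mul _ (by fun_prop)]
  apply ENNReal.mul_lt_top ENNReal.ofReal_lt_top
  apply finite_integral_one_add_norm
  rw [Complex.finrank_real_complex]
  push_cast
  linarith

lemma global_le (α : ℝ) (Ω : Set ℂ) :
    (∫⁻ z in Ω, ∫⁻ w in Ωᶜ, ENNReal.ofReal (‖z - w‖ ^ (α - 3))) ≤
      fracPer α Ω + ∫⁻ z in Ω, ∫⁻ w in Ωᶜ, farK α (z - w) := by
  unfold fracPer
  have hm2 : Measurable (fun z : ℂ => ∫⁻ w in Ωᶜ, farK α (z - w)) := by
    apply Measurable.lintegral_prod_right' (f := fun p : ℂ × ℂ => farK α (p.1 - p.2))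
    exact (farK_meas α).comp (measurable_fst.sub measurable_snd)
  rw [← lintegral_add_right _ hm2]
  apply lintegral_mono
  intro z
  have hm3 : Measurable (fun w : ℂ => farK α (z - w)) :=
    (farK_meas α).comp (measurable_const.sub measurable_id)
  have e1 : ∫⁻ w in Ωᶜ ∩ ball z 1, ENNReal.ofReal (‖z - w‖ ^ (α - 3)) =
      ∫⁻ w in Ωᶜ, (ball z 1).indicator (fun w => ENNReal.ofReal (‖z - w‖ ^ (α - 3))) w := by
    rw [lintegral_indicator measurableSet_ball, Measure.restrict_restrict measurableSet_ball,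
      inter_comm]
  simp only
  rw [e1, ← lintegral_add_right _ hm3]
  apply lintegral_mono
  intro w
  by_cases hw : w ∈ ball z 1
  · simp only
    rw [indicator_of_mem hw]
    exact le_self_add
  · simp only
    rw [indicator_of_notMem hw, zero_add]
    unfold farK
    rw [indicator_of_mem]
    rw [mem_ball, not_lt, dist_comm, dist_eq_norm] at hw
    exact hw

lemma far_lt_top {α : ℝ} (hα1 : α < 1) {Ω : Set ℂ}
    (h : volume Ω < ⊤ ∨ volume Ωᶜ < ⊤) : ∫⁻ z in Ω, ∫⁻ w in Ωᶜ, farK α (z - w) < ⊤ := by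
  have hK := farK_lt_top hα1
  rcases h with h | h
  · have h1 : ∀ z : ℂ, ∫⁻ w in Ωᶜ, farK α (z - w) ≤ ∫⁻ u, farK α u := by
      intro z
      refine (setLIntegral_le_lintegral _ _).trans (le_of_eq ?_)
      exact lintegral_sub_left_eq_self (fun u => farK α u) z
    calc ∫⁻ z in Ω, ∫⁻ w in Ωᶜ, farK α (z - w) ≤ ∫⁻ z in Ω, ∫⁻ u, farK α u :=
          lintegral_mono h1
      _ = (∫⁻ u, farK α u) * volume Ω := by rw [setLIntegral_const]
      _ < ⊤ := ENNReal.mul_lt_top hK h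
  · have hm : Measurable (Function.uncurry fun z w : ℂ => farK α (z - w)) :=
      (farK_meas α).comp (measurable_fst.sub measurable_snd)
    rw [lintegral_lintegral_swap hm.aemeasurable]
    have h1 : ∀ w : ℂ, ∫⁻ z in Ω, farK α (z - w) ≤ ∫⁻ u, farK α u := by
      intro w
      refine (setLIntegral_le_lintegral _ _).trans (le_of_eq ?_)
      exact lintegral_sub_right_eq_self (fun u => farK α u) w
    calc ∫⁻ w in Ωᶜ, ∫⁻ z in Ω, farK α (z - w) ≤ ∫⁻ w in Ωᶜ, ∫⁻ u, farK α u :=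
          lintegral_mono h1
      _ = (∫⁻ u, farK α u) * volume Ωᶜ := by rw [setLIntegral_const]
      _ < ⊤ := ENNReal.mul_lt_top hK h

/-- For `α < 1`: `Ω` is `α`-admissible iff its fractional perimeter of order `1 - α` is finite. -/
theorem admissible_iff_fracPerimeter {α : ℝ} (hα : 0 < α) (hα1 : α < 1) {k : ℕ} (hk : α < k)
    {Ω : Set ℂ} (hΩ : MeasurableSet Ω) : Admissible α k Ω ↔
      (∫⁻ z in Ω, ∫⁻ w in Ωᶜ, ENNReal.ofReal (‖z - w‖ ^ (α - 3))) < ⊤ := by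
  constructor
  · intro h
    refine lt_of_le_of_lt (global_le α Ω) (ENNReal.add_lt_top.2 ⟨?_, ?_⟩)
    · exact (admissible_iff_fracPer hα hα1 hk hΩ).1 h
    · exact far_lt_top hα1 (area_of_admissible hα hα1.le hk hΩ h)
  · intro h
    refine (admissible_iff_fracPer hα hα1 hk hΩ).2 (lt_of_le_of_lt ?_ h)
    unfold fracPer
    apply lintegral_mono
    intro z
    exact lintegral_mono_set inter_subset_left

end H98.Dbar
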